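import Mathlib

/-! Project HE: box dimension less than `1/2` (combinatorial part). -/

set_option autoImplicit false

open Set

namespace Pool.Agent.W451.HE

section seq

variable {κ : ℝ} {S : Set ℝ}

/-- the hypothesis on the set -/
def Hyp (κ : ℝ) (S : Set ℝ) : Prop :=
  ∀ (n : ℕ) (t : ℕ → ℝ), (∀ i ≤ n, t i ∈ S) → (∀ i < n, t i < t (i + 1)) →
    ∑ i ∈ Finset.range n, Real.sqrt (t (i + 1) - t i) ≤ κ * Real.sqrt (t n - t 0)

/-- a run of small gaps -/
lemma run (hκ : 0 ≤ κ) (H : Hyp κ S) (lam : ℝ) (hlam : 0 < lam) (k : ℕ) (t : ℕ → ℝ)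
    (ht : ∀ i ≤ k, t i ∈ S) (hm : ∀ i < k, t i < t (i + 1))
    (hg : ∀ i < k, t (i + 1) - t i < lam) :
    ∑ i ∈ Finset.range k, Real.sqrt (t (i + 1) - t i) ≤ κ ^ 2 * Real.sqrt lam := by
  have h1 := H k t ht hm
  have h2 : t k - t 0 = ∑ i ∈ Finset.range k, (t (i + 1) - t i) := (Finset.sum_range_sub t k).symm
  have h3 : t k - t 0 ≤ Real.sqrt lam * ∑ i ∈ Finset.range k, Real.sqrt (t (i + 1) - t i) := by
    rw [h2, Finset.mul_sum]
    refine Finset.sum_le_sum (fun i hi => ?_)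
    rw [Finset.mem_range] at hi
    have h4 : 0 ≤ t (i + 1) - t i := by linarith [hm i hi]
    calc t (i + 1) - t i = Real.sqrt (t (i + 1) - t i) * Real.sqrt (t (i + 1) - t i) :=
          (Real.mul_self_sqrt h4).symm
      _ ≤ Real.sqrt lam * Real.sqrt (t (i + 1) - t i) :=
          mul_le_mul_of_nonneg_right (Real.sqrt_le_sqrt (hg i hi).le) (Real.sqrt_nonneg _)
  have h0 : 0 ≤ t k - t 0 := by
    rw [h2]
    refine Finset.sum_nonneg (fun i hi => ?_)
    rw [Finset.mem_range] at hi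
    linarith [hm i hi]
  set D := Real.sqrt (t k - t 0) with hD
  have hD0 : 0 ≤ D := Real.sqrt_nonneg _
  have hDD : D * D = t k - t 0 := Real.mul_self_sqrt h0
  have h5 : D * D ≤ (κ * Real.sqrt lam) * D := by
    rw [hDD]
    refine h3.trans ?_
    calc Real.sqrt lam * ∑ i ∈ Finset.range k, Real.sqrt (t (i + 1) - t i)
        ≤ Real.sqrt lam * (κ * D) := mul_le_mul_of_nonneg_left h1 (Real.sqrt_nonneg _)
      _ = _ := by ring
  have h6 : D ≤ κ * Real.sqrt lam := by
    rcases hD0.eq_or_lt with h | h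
    · rw [← h]
      positivity
    · exact le_of_mul_le_mul_right h5 h
  refine h1.trans ?_
  calc κ * D ≤ κ * (κ * Real.sqrt lam) := mul_le_mul_of_nonneg_left h6 hκ
    _ = _ := by ring

/-- sum over the small gaps -/
noncomputable def Fs (t : ℕ → ℝ) (lam : ℝ) (n : ℕ) : ℝ :=
  ∑ i ∈ Finset.range n, if t (i + 1) - t i < lam then Real.sqrt (t (i + 1) - t i) else 0

/-- number of large gaps -/
noncomputable def cs (t : ℕ → ℝ) (lam : ℝ) (n : ℕ) : ℝ :=
  ∑ i ∈ Finset.range n, if t (i + 1) - t i < lam then (0 : ℝ) else 1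

lemma cs_nonneg (t : ℕ → ℝ) (lam : ℝ) (n : ℕ) : 0 ≤ cs t lam n :=
  Finset.sum_nonneg (fun i _ => by split_ifs <;> norm_num)

lemma Fs_nonneg (t : ℕ → ℝ) (lam : ℝ) (n : ℕ) : 0 ≤ Fs t lam n :=
  Finset.sum_nonneg (fun i _ => by split_ifs <;> positivity)

lemma cluster (hκ : 0 ≤ κ) (H : Hyp κ S) (lam : ℝ) (hlam : 0 < lam) (t : ℕ → ℝ) (n : ℕ)
    (ht : ∀ i ≤ n, t i ∈ S) (hm : ∀ i < n, t i < t (i + 1)) :
    Fs t lam n ≤ κ ^ 2 * Real.sqrt lam * (1 + cs t lam n) := by
  have key : ∀ k ≤ n, ∃ p ≤ k, (∀ i, p ≤ i → i < k → t (i + 1) - t i < lam) ∧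
      Fs t lam k ≤ κ ^ 2 * Real.sqrt lam * cs t lam k +
        ∑ i ∈ Finset.range (k - p), Real.sqrt (t (p + i + 1) - t (p + i)) := by
    intro k
    induction k with
    | zero =>
      intro _
      exact ⟨0, le_rfl, fun i _ hi => absurd hi (Nat.not_lt_zero i), by simp [Fs, cs]⟩
    | succ k ih =>
      intro hk
      obtain ⟨p, hpk, hp, hle⟩ := ih (by omega)
      have e1 : Fs t lam (k + 1) = Fs t lam k +
          if t (k + 1) - t k < lam then Real.sqrt (t (k + 1) - t k) else 0 :=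
        Finset.sum_range_succ _ _
      have e2 : cs t lam (k + 1) = cs t lam k +
          if t (k + 1) - t k < lam then (0 : ℝ) else 1 :=
        Finset.sum_range_succ _ _
      by_cases hsmall : t (k + 1) - t k < lam
      · refine ⟨p, by omega, ?_, ?_⟩
        · intro i h1 h2
          rcases Nat.lt_succ_iff_lt_or_eq.mp h2 with h3 | h3
          · exact hp i h1 h3
          · rw [h3]
            exact hsmall
        · rw [e1, e2, if_pos hsmall, if_pos hsmall, add_zero]
          have h4 : k + 1 - p = (k - p) + 1 := by omega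
          rw [h4, Finset.sum_range_succ]
          have h5 : p + (k - p) = k := by omega
          rw [h5]
          linarith
      · refine ⟨k + 1, le_rfl, fun i h1 h2 => absurd h2 (by omega), ?_⟩
        rw [e1, e2, if_neg hsmall, if_neg hsmall, add_zero]
        have h6 : ∑ i ∈ Finset.range (k - p), Real.sqrt (t (p + i + 1) - t (p + i)) ≤
            κ ^ 2 * Real.sqrt lam := by
          refine run hκ H lam hlam (k - p) (fun i => t (p + i)) ?_ ?_ ?_
          · intro i hi
            exact ht _ (by omega)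
          · intro i hi
            exact hm _ (by omega)
          · intro i hi
            exact hp (p + i) (by omega) (by omega)
        rw [Nat.sub_self, Finset.sum_range_zero]
        linarith
  obtain ⟨p, hpk, hp, hle⟩ := key n le_rfl
  have h6 : ∑ i ∈ Finset.range (n - p), Real.sqrt (t (p + i + 1) - t (p + i)) ≤
      κ ^ 2 * Real.sqrt lam := by
    refine run hκ H lam hlam (n - p) (fun i => t (p + i)) ?_ ?_ ?_
    · intro i hi
      exact ht _ (by omega)
    · intro i hi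
      exact hm _ (by omega)
    · intro i hi
      exact hp (p + i) (by omega) (by omega)
  linarith

/-- change of scale -/
lemma step (t : ℕ → ℝ) (n : ℕ) (lam mu : ℝ) (h : mu ≤ lam) :
    Fs t mu n + Real.sqrt mu * (1 + cs t mu n) ≤ Fs t lam n + Real.sqrt mu * (1 + cs t lam n) := by
  unfold Fs cs
  rw [mul_add, mul_add, Finset.mul_sum, Finset.mul_sum]
  have key : ∑ i ∈ Finset.range n,
      ((if t (i + 1) - t i < mu then Real.sqrt (t (i + 1) - t i) else 0) +
        Real.sqrt mu * (if t (i + 1) - t i < mu then (0 : ℝ) else 1)) ≤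
      ∑ i ∈ Finset.range n,
      ((if t (i + 1) - t i < lam then Real.sqrt (t (i + 1) - t i) else 0) +
        Real.sqrt mu * (if t (i + 1) - t i < lam then (0 : ℝ) else 1)) := by
    refine Finset.sum_le_sum (fun i _ => ?_)
    by_cases h1 : t (i + 1) - t i < mu
    · rw [if_pos h1, if_pos h1, if_pos (h1.trans_le h), if_pos (h1.trans_le h)]
    · rw [if_neg h1, if_neg h1]
      by_cases h2 : t (i + 1) - t i < lam
      · rw [if_pos h2, if_pos h2]
        have := Real.sqrt_le_sqrt (not_lt.mp h1)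
        linarith
      · rw [if_neg h2, if_neg h2]
  rw [Finset.sum_add_distrib, Finset.sum_add_distrib] at key
  linarith

lemma c_zero (t : ℕ → ℝ) (n : ℕ) (l : ℝ) (hl : 0 < l) (hm : ∀ i < n, t i < t (i + 1))
    (hD : t n - t 0 ≤ l) : cs t l n ≤ 1 := by
  have h1 : cs t l n * l ≤ t n - t 0 := by
    unfold cs
    rw [Finset.sum_mul, ← Finset.sum_range_sub t n]
    refine Finset.sum_le_sum (fun i hi => ?_)
    rw [Finset.mem_range] at hi
    split_ifs with h
    · rw [zero_mul]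
      linarith [hm i hi]
    · rw [one_mul]
      exact not_lt.mp h
  have h2 : cs t l n * l ≤ 1 * l := by linarith
  exact le_of_mul_le_mul_right h2 hl

lemma main_seq (hκ : 0 ≤ κ) (H : Hyp κ S) (l : ℝ) (hl : 0 < l) (t : ℕ → ℝ) (n m : ℕ)
    (ht : ∀ i ≤ n, t i ∈ S) (hm : ∀ i < n, t i < t (i + 1)) (hD : t n - t 0 ≤ l)
    (hg : ∀ i < n, l * (1 / 2) ^ m ≤ t (i + 1) - t i) :
    ((n : ℝ) + 1) * (Real.sqrt (1 / 2)) ^ m ≤
      2 * (κ ^ 2 + 1) * (1 - (1 - Real.sqrt (1 / 2)) / (1 + κ ^ 2)) ^ m := by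
  set β := Real.sqrt (1 / 2) with hβ
  have hβ0 : 0 < β := Real.sqrt_pos.mpr (by norm_num)
  have hβ1 : β < 1 := by
    rw [hβ, Real.sqrt_lt' (by norm_num)]
    norm_num
  set ρ := 1 - (1 - β) / (1 + κ ^ 2) with hρ
  have hK : 0 < 1 + κ ^ 2 := by positivity
  have hρ0 : 0 ≤ ρ := by
    have : (1 - β) / (1 + κ ^ 2) ≤ 1 := by
      rw [div_le_one hK]
      nlinarith [sq_nonneg κ]
    rw [hρ]
    linarith
  have hlam : ∀ j : ℕ, Real.sqrt (l * (1 / 2) ^ j) = Real.sqrt l * β ^ j := by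
    intro j
    rw [Real.sqrt_mul hl.le]
    congr 1
    induction j with
    | zero => simp
    | succ j ih => rw [pow_succ, Real.sqrt_mul (by positivity), ih, pow_succ]
  have hV : ∀ j : ℕ, Fs t (l * (1 / 2) ^ j) n + Real.sqrt (l * (1 / 2) ^ j) *
      (1 + cs t (l * (1 / 2) ^ j) n) ≤ ρ ^ j * (2 * (κ ^ 2 + 1) * Real.sqrt l) := by
    intro j
    induction j with
    | zero =>
      have h1 := cluster hκ H l hl t n ht hm
      have h2 := c_zero t n l hl hm hD
      simp only [pow_zero, mul_one, one_mul]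
      have h3 : 0 ≤ Real.sqrt l := Real.sqrt_nonneg l
      calc Fs t l n + Real.sqrt l * (1 + cs t l n) ≤ (κ ^ 2 + 1) * Real.sqrt l * (1 + cs t l n) := by
            linarith
        _ ≤ (κ ^ 2 + 1) * Real.sqrt l * 2 :=
            mul_le_mul_of_nonneg_left (by linarith) (by positivity)
        _ = _ := by ring
    | succ j ih =>
      have hpos : 0 < l * (1 / 2) ^ j := by positivity
      have h1 := cluster hκ H (l * (1 / 2) ^ j) hpos t n ht hm
      have h2 := step t n (l * (1 / 2) ^ j) (l * (1 / 2) ^ (j + 1)) (by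
        refine mul_le_mul_of_nonneg_left ?_ hl.le
        exact pow_le_pow_of_le_one (by norm_num) (by norm_num) (Nat.le_succ j))
      refine h2.trans ?_
      set V := Fs t (l * (1 / 2) ^ j) n + Real.sqrt (l * (1 / 2) ^ j) *
        (1 + cs t (l * (1 / 2) ^ j) n) with hVd
      have h3 : Real.sqrt (l * (1 / 2) ^ (j + 1)) = β * Real.sqrt (l * (1 / 2) ^ j) := by
        rw [hlam, hlam, pow_succ]
        ring
      rw [h3]
      set b := Real.sqrt (l * (1 / 2) ^ j) * (1 + cs t (l * (1 / 2) ^ j) n) with hb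
      have h4 : V ≤ (1 + κ ^ 2) * b := by
        rw [hVd]
        have : κ ^ 2 * Real.sqrt (l * (1 / 2) ^ j) * (1 + cs t (l * (1 / 2) ^ j) n) = κ ^ 2 * b := by
          rw [hb]
          ring
        linarith
      have h5 : V / (1 + κ ^ 2) ≤ b := by
        rw [div_le_iff₀ hK]
        linarith
      have h6 : Fs t (l * (1 / 2) ^ j) n + β * Real.sqrt (l * (1 / 2) ^ j) *
          (1 + cs t (l * (1 / 2) ^ j) n) = V - (1 - β) * b := by
        rw [hVd, hb]
        ring
      rw [h6]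
      have h7 : V - (1 - β) * b ≤ ρ * V := by
        have h8 : (1 - β) * (V / (1 + κ ^ 2)) ≤ (1 - β) * b :=
          mul_le_mul_of_nonneg_left h5 (by linarith)
        have h9 : ρ * V = V - (1 - β) * (V / (1 + κ ^ 2)) := by
          rw [hρ]
          ring
        linarith
      refine h7.trans ?_
      rw [pow_succ]
      calc ρ * V ≤ ρ * (ρ ^ j * (2 * (κ ^ 2 + 1) * Real.sqrt l)) :=
            mul_le_mul_of_nonneg_left ih hρ0
        _ = _ := by ring
  have h10 := hV m
  have h11 : cs t (l * (1 / 2) ^ m) n = n := by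
    unfold cs
    rw [Finset.sum_congr rfl (fun i hi => if_neg (not_lt.mpr (hg i (Finset.mem_range.mp hi))))]
    simp
  rw [h11, hlam] at h10
  have h12 := Fs_nonneg t (l * (1 / 2) ^ m) n
  have hsl : 0 < Real.sqrt l := Real.sqrt_pos.mpr hl
  have h13 : Real.sqrt l * (((n : ℝ) + 1) * β ^ m) ≤
      Real.sqrt l * (2 * (κ ^ 2 + 1) * ρ ^ m) := by
    have : Real.sqrt l * (((n : ℝ) + 1) * β ^ m) = Real.sqrt l * β ^ m * (1 + n) := by ring
    have h14 : Real.sqrt l * (2 * (κ ^ 2 + 1) * ρ ^ m) =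
      ρ ^ m * (2 * (κ ^ 2 + 1) * Real.sqrt l) := by ring
    linarith
  exact le_of_mul_le_mul_left h13 hsl

end seq


/-- separated finite subsets are small -/
lemma sep_card {κ : ℝ} {S : Set ℝ} (hκ : 0 ≤ κ) (H : Hyp κ S) (a l : ℝ) (hl : 0 < l)
    (hS : S ⊆ Icc a (a + l)) (m : ℕ) (T : Finset ℝ) (hT : ∀ x ∈ T, x ∈ S)
    (hsep : ∀ x ∈ T, ∀ y ∈ T, x < y → l * (1 / 2) ^ m ≤ y - x) :
    (T.card : ℝ) * (Real.sqrt (1 / 2)) ^ m ≤
      2 * (κ ^ 2 + 1) * (1 - (1 - Real.sqrt (1 / 2)) / (1 + κ ^ 2)) ^ m := by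
  rcases Nat.eq_zero_or_pos T.card with h0 | hpos
  · rw [h0]
    have hβ1 : Real.sqrt (1 / 2) ≤ 1 := by
      rw [Real.sqrt_le_one]
      norm_num
    have hβ0 := Real.sqrt_nonneg (1 / 2 : ℝ)
    have hρ0 : 0 ≤ 1 - (1 - Real.sqrt (1 / 2)) / (1 + κ ^ 2) := by
      have : (1 - Real.sqrt (1 / 2)) / (1 + κ ^ 2) ≤ 1 := by
        rw [div_le_one (by positivity)]
        nlinarith [sq_nonneg κ]
      linarith
    rw [Nat.cast_zero, zero_mul]
    positivity
  · obtain ⟨n, hn⟩ : ∃ n, T.card = n + 1 := ⟨T.card - 1, by omega⟩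
    set o := T.orderEmbOfFin hn with ho
    set t : ℕ → ℝ := fun i => o ⟨min i n, by omega⟩ with ht
    have htT : ∀ i, t i ∈ T := fun i => Finset.orderEmbOfFin_mem T hn _
    have hmono : ∀ i < n, t i < t (i + 1) := by
      intro i hi
      simp only [ht]
      refine o.strictMono ?_
      rw [Fin.lt_def]
      simp only
      omega
    have hD : t n - t 0 ≤ l := by
      have h1 := hS (hT _ (htT n))
      have h2 := hS (hT _ (htT 0))
      linarith [h1.2, h2.1]
    have := main_seq hκ H l hl t n m (fun i _ => hT _ (htT i)) hmono hD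
      (fun i hi => hsep _ (htT i) _ (htT (i + 1)) (hmono i hi))
    rw [hn]
    push_cast
    exact this

theorem core : ∀ κ : ℝ, 0 ≤ κ → ∃ θ A : ℝ, 0 ≤ θ ∧ θ < 1 / 2 ∧ 0 < A ∧
  ∀ (a l : ℝ) (S : Set ℝ), 0 < l → S ⊆ Icc a (a + l) →
    (∀ (n : ℕ) (t : ℕ → ℝ), (∀ i ≤ n, t i ∈ S) → (∀ i < n, t i < t (i + 1)) →
      ∑ i ∈ Finset.range n, Real.sqrt (t (i + 1) - t i) ≤ κ * Real.sqrt (t n - t 0)) →
    ∀ r : ℝ, 0 < r → r ≤ l → ∃ P : Finset ℝ, (P.card : ℝ) ≤ A * (l / r) ^ θ ∧
      S ⊆ ⋃ p ∈ P, Icc p (p + r) := by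
  classical
  intro κ hκ
  set β := Real.sqrt (1 / 2) with hβ
  have hβ0 : 0 < β := Real.sqrt_pos.mpr (by norm_num)
  have hβ1 : β < 1 := by
    rw [hβ, Real.sqrt_lt' (by norm_num)]
    norm_num
  set ρ := 1 - (1 - β) / (1 + κ ^ 2) with hρ
  have hK : 0 < 1 + κ ^ 2 := by positivity
  have hρβ : β ≤ ρ := by
    have : (1 - β) / (1 + κ ^ 2) ≤ 1 - β := by
      rw [div_le_iff₀ hK]
      nlinarith [sq_nonneg κ]
    rw [hρ]
    linarith
  have hρ1 : ρ < 1 := by
    have : 0 < (1 - β) / (1 + κ ^ 2) := div_pos (by linarith) hK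
    rw [hρ]
    linarith
  have hρ0 : 0 < ρ := hβ0.trans_le hρβ
  set q := ρ / β with hq
  have hq1 : 1 ≤ q := (one_le_div hβ0).mpr hρβ
  have hq0 : 0 < q := by linarith
  set θ := Real.logb 2 q with hθ
  have hθ0 : 0 ≤ θ := Real.logb_nonneg (by norm_num) hq1
  have h2θ : (2 : ℝ) ^ θ = q := Real.rpow_logb (by norm_num) (by norm_num) hq0
  have hθ1 : θ < 1 / 2 := by
    have h1 : q < (2 : ℝ) ^ (1 / 2 : ℝ) := by
      rw [← Real.sqrt_eq_rpow]
      have h2 : Real.sqrt 2 * β = 1 := by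
        rw [hβ, ← Real.sqrt_mul (by norm_num)]
        norm_num
      rw [hq, div_lt_iff₀ hβ0, h2]
      exact hρ1
    have h3 : Real.logb 2 q < Real.logb 2 ((2 : ℝ) ^ (1 / 2 : ℝ)) :=
      Real.logb_lt_logb (by norm_num) hq0 h1
    rw [Real.logb_rpow (by norm_num) (by norm_num)] at h3
    exact h3
  refine ⟨θ, 8 * (κ ^ 2 + 1), hθ0, hθ1, by positivity, ?_⟩
  intro a l S hl hS H r hr hrl
  -- choice of the scale
  have hex : ∃ m : ℕ, l / r ≤ 2 ^ m := pow_unbounded_of_one_lt (l / r) (by norm_num) |>.imp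
    (fun m hm => hm.le)
  set m := Nat.find hex with hm
  have hm1 : l / r ≤ 2 ^ m := Nat.find_spec hex
  have hm2 : (2 : ℝ) ^ m ≤ 2 * (l / r) := by
    rcases Nat.eq_zero_or_pos m with h | h
    · rw [h, pow_zero]
      have : 1 ≤ l / r := (one_le_div hr).mpr hrl
      linarith
    · have h1 := Nat.find_min hex (m := m - 1) (by omega)
      rw [not_le] at h1
      have h2 : (2 : ℝ) ^ m = 2 * 2 ^ (m - 1) := by
        rw [← pow_succ']
        congr 1
        omega
      rw [h2]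
      linarith
  have hlr : 0 < l / r := div_pos hl hr
  set w := l * (1 / 2) ^ m with hw
  have hw0 : 0 < w := by positivity
  have hwr : w ≤ r := by
    have h1 : l ≤ 2 ^ m * r := (div_le_iff₀ hr).mp hm1
    have h2 : (1 / 2 : ℝ) ^ m * 2 ^ m = 1 := by
      rw [← mul_pow]
      norm_num
    calc w = l * (1 / 2) ^ m := hw
      _ ≤ (2 ^ m * r) * (1 / 2) ^ m := mul_le_mul_of_nonneg_right h1 (by positivity)
      _ = ((1 / 2 : ℝ) ^ m * 2 ^ m) * r := by ring
      _ = r := by rw [h2, one_mul]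
  -- the bound of the separated sets
  have hbound : ∀ T : Finset ℝ, (∀ x ∈ T, x ∈ S) → (∀ x ∈ T, ∀ y ∈ T, x < y → w ≤ y - x) →
      (T.card : ℝ) ≤ 2 * (κ ^ 2 + 1) * q ^ m := by
    intro T hT hsep
    have h1 := sep_card hκ H a l hl hS m T hT hsep
    have h2 : 0 < β ^ m := by positivity
    have h3 : (T.card : ℝ) ≤ 2 * (κ ^ 2 + 1) * ρ ^ m / β ^ m := (le_div_iff₀ h2).mpr h1
    rw [hq, div_pow]
    calc (T.card : ℝ) ≤ 2 * (κ ^ 2 + 1) * ρ ^ m / β ^ m := h3
      _ = _ := by ring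
  -- a separated set with the maximal number of points
  obtain ⟨B, hB⟩ := exists_nat_ge (2 * (κ ^ 2 + 1) * q ^ m)
  have hexT : ∃ k : ℕ, (∃ T : Finset ℝ, (∀ x ∈ T, x ∈ S) ∧
      (∀ x ∈ T, ∀ y ∈ T, x < y → w ≤ y - x) ∧ T.card = k) ∧
      ∀ T' : Finset ℝ, (∀ x ∈ T', x ∈ S) → (∀ x ∈ T', ∀ y ∈ T', x < y → w ≤ y - x) →
        T'.card ≤ k := by
    set pr : ℕ → Prop := fun k => ∃ T : Finset ℝ, (∀ x ∈ T, x ∈ S) ∧
      (∀ x ∈ T, ∀ y ∈ T, x < y → w ≤ y - x) ∧ T.card = k with hpr
    have hpr0 : pr 0 := ⟨∅, by simp, by simp, rfl⟩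
    refine ⟨Nat.findGreatest pr B, Nat.findGreatest_spec (Nat.zero_le B) hpr0, ?_⟩
    intro T' h1 h2
    refine Nat.le_findGreatest ?_ ⟨T', h1, h2, rfl⟩
    have := (hbound T' h1 h2).trans hB
    exact_mod_cast this
  obtain ⟨k, ⟨T, hT, hsep, hcard⟩, hmax⟩ := hexT
  refine ⟨T ∪ T.image (fun p => p - w), ?_, ?_⟩
  · have h1 : ((T ∪ T.image (fun p => p - w)).card : ℝ) ≤ 2 * (T.card : ℝ) := by
      have h2 : (T ∪ T.image (fun p => p - w)).card ≤ 2 * T.card := by
        refine (Finset.card_union_le _ _).trans ?_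
        have := Finset.card_image_le (s := T) (f := fun p => p - w)
        omega
      exact_mod_cast h2
    refine h1.trans ?_
    have h3 := hbound T hT hsep
    have h4 : q ^ m ≤ 2 * (l / r) ^ θ := by
      have h5 : q ^ m = ((2 : ℝ) ^ m) ^ θ := by
        rw [← h2θ, ← Real.rpow_natCast, ← Real.rpow_mul (by norm_num), ← Real.rpow_natCast,
          ← Real.rpow_mul (by norm_num)]
        congr 1
        ring
      rw [h5]
      calc ((2 : ℝ) ^ m) ^ θ ≤ (2 * (l / r)) ^ θ := Real.rpow_le_rpow (by positivity) hm2 hθ0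
        _ = 2 ^ θ * (l / r) ^ θ := Real.mul_rpow (by norm_num) hlr.le
        _ ≤ 2 * (l / r) ^ θ := by
            refine mul_le_mul_of_nonneg_right ?_ (Real.rpow_nonneg hlr.le _)
            calc (2 : ℝ) ^ θ ≤ 2 ^ (1 : ℝ) :=
                  Real.rpow_le_rpow_of_exponent_le (by norm_num) (by linarith)
              _ = 2 := Real.rpow_one 2
    have h6 : 2 * (κ ^ 2 + 1) * q ^ m ≤ 2 * (κ ^ 2 + 1) * (2 * (l / r) ^ θ) :=
      mul_le_mul_of_nonneg_left h4 (by positivity)
    linarith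
  · intro s hs
    by_cases hsT : ∃ p ∈ T, |s - p| < w
    · obtain ⟨p, hp, hlt⟩ := hsT
      rw [abs_lt] at hlt
      rw [Set.mem_iUnion₂]
      rcases le_or_gt p s with h | h
      · exact ⟨p, Finset.mem_union_left _ hp, ⟨h, by linarith⟩⟩
      · refine ⟨p - w, Finset.mem_union_right _ (Finset.mem_image_of_mem _ hp), ⟨by linarith, ?_⟩⟩
        linarith
    · exfalso
      push Not at hsT
      have hsnot : s ∉ T := by
        intro h
        have := hsT s h
        rw [sub_self, abs_zero] at this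
        linarith
      have h1 := hmax (insert s T) (by
        intro x hx
        rw [Finset.mem_insert] at hx
        rcases hx with rfl | hx
        · exact hs
        · exact hT x hx) (by
        intro x hx y hy hxy
        rw [Finset.mem_insert] at hx hy
        rcases hx with rfl | hx
        · rcases hy with rfl | hy
          · exact absurd hxy (lt_irrefl _)
          · have := hsT y hy
            rw [abs_of_neg (by linarith)] at this
            linarith
        · rcases hy with rfl | hy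
          · have := hsT x hx
            rw [abs_of_pos (by linarith)] at this
            linarith
          · exact hsep x hx y hy hxy)
      rw [Finset.card_insert_of_notMem hsnot] at h1
      omega

end Pool.Agent.W451.HE
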