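import Pool.Agent.W795.HE.Stm
import Pool.Agent.W451.HE.DimCore

/-! Project HE: box dimension less than `1/2`. -/

set_option autoImplicit false

namespace Pool.Agent.W451.HE

theorem proof : Pool.Agent.W795.HE.S_dim := core

end Pool.Agent.W451.HE
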